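import Pool.Agent.Helper66_ML.Stmts2
import Pool.Agent.Helper13_WRA.Count

/-!
# Squad ML, stage 2: the polynomial of the values `omF F a`, `a` in `IrrS H`
-/

open scoped BigOperators

noncomputable section

namespace Pool.Agent.PP.ML.H86

open Pool.Agent.Helper51_AWC Pool.Agent.Helper79_WRA Pool.Agent.PP Pool.Agent.Helper98_CC

/-- `omF` for a character of a subgroup. -/
theorem omF_restrict {G : Type} [Group G] [Finite G] (H : Subgroup G) [Fintype H] (F a : G → ℂ)
    (ha : a ∈ IrrS H) : H50.om (fun x : H => F x) (fun x : H => a x) = omF F a := by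
  have h1 := Pool.Agent.Helper79_WRA.H13.val_restrict (Λ := H) F a (fun t ht => ha.1 t ht)
  have h2 : omF F a = val F a := rfl
  rw [h2, ← h1]
  unfold H50.om val
  rw [finsum_eq_sum_of_fintype]

/-- CHP for a subgroup. -/
theorem chpH (hchp : ChpStmt2) {ℓ : ℕ} [Fact ℓ.Prime] {G : Type} [Group G] [Finite G]
    (H : Subgroup G) (F : G → ℂ) (hF : ∀ x y, F (y * x * y⁻¹) = F x) (hW : ∀ x, F x ∈ W0 ℓ)
    (s : Finset (G → ℂ)) (hs : ∀ a, a ∈ s ↔ a ∈ IrrS H) (i : ℕ) :
    (∏ a ∈ s, (Polynomial.X - Polynomial.C (omF F a))).coeff i ∈ W0 ℓ := by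
  classical
  have := Fintype.ofFinite H
  have hinj : ∀ a ∈ s, ∀ b ∈ s, (fun x : H => a x) = (fun x : H => b x) → a = b := by
    intro a ha b hb h
    exact IrrS_ext ((hs a).1 ha) ((hs b).1 hb) (fun x => congrFun h x)
  have h1 := hchp ℓ H (fun x : H => F x) (fun x y => hF x y) (fun x => hW x)
    (s.image fun a => fun x : H => a x) (by
      intro χ
      constructor
      · intro h
        obtain ⟨a, ha, rfl⟩ := Finset.mem_image.1 h
        exact ((hs a).1 ha).2
      · intro h
        obtain ⟨a, ha, hax⟩ := exists_IrrS H h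
        exact Finset.mem_image.2 ⟨a, (hs a).2 ha, funext hax⟩) i
  rw [Finset.prod_image hinj] at h1
  have h2 : ∏ a ∈ s, (Polynomial.X - Polynomial.C (omF F a)) =
      ∏ a ∈ s, (Polynomial.X - Polynomial.C (H50.om (fun x : H => F x) (fun x : H => a x))) :=
    Finset.prod_congr rfl fun a ha => by rw [omF_restrict H F a ((hs a).1 ha)]
  rw [h2]
  exact h1

end Pool.Agent.PP.ML.H86
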