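import Pool.Agent.Helper86_ML.Asm
import Pool.Agent.Helper27_ML.Common

/-!
# Squad ML, stage 2, row NN3: nine divides the alternating sum
-/

open scoped BigOperators

noncomputable section

namespace Pool.Agent.PP.ML.H86

open Pool.Agent.Helper51_AWC Pool.Agent.Helper79_WRA Pool.Agent.PP Pool.Agent.Helper98_CC

theorem nn3 (num : NumStmt) (alb : AlbStmt) (tei : TeiStmt) (lda : LdaStmt) (dvr : DvrStmt)
    (chp : ChpStmt2) (cub : CubStmt) (lam : LamStmt) (reg : RegStmt) : Nn3Stmt := by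
  intro M hMx h3 G _ _ hO f hf hpos hDf χ hχ hres
  have hp : Fact (Nat.Prime 3) := ⟨Nat.prime_three⟩
  obtain ⟨F, hFc, hFW, hFi, hFr, hF0⟩ := H27.lift (ℓ := 3) (M := M) tei h3
    (H27.zz_cl (ℓ := 3) (M := M) hf.1.1)
  refine asm3 num alb lda chp cub M h3 hO hχ F hFc hFW hFi (fun g hg => ?_)
    (fun d hd hc a ha => ?_)
  · exact (H27.zz_ne (ℓ := 3) (M := M) dvr reg h3 hf hDf g (hF0 g hg)).1 rfl
  · exact H27.red_omF (ℓ := 3) (M := M) lam h3 hf hpos hχ hres hFc hFi hFr hd hc ha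

end Pool.Agent.PP.ML.H86
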