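import Pool.Agent.Helper66_ML.Stmts4
import Pool.Agent.Helper65_ML.EXG

/-!
# EXR: an `ℓ`-regular element with defect group `D` (squad ML, stage 2)

Adapted from `Pool/Agent/Helper65_ML/EXG.lean` (`z = 1`).
-/

open scoped BigOperators

noncomputable section

namespace Pool.Agent.PP.ML.H86

open Pool.Agent.Helper51_AWC Pool.Agent.Helper79_WRA Pool.Agent.PP Pool.Agent.Helper98_CC
  Pool.Agent.PP.ML Pool.Agent.PP.ML.H65

theorem exr (hLYO : LyoStmt) : ExrStmt := by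
  intro ℓ _ M _ hl G _ _ χ hχ D hD
  classical
  obtain ⟨μ, -, hμc, hμz, hμsum⟩ := hLYO ℓ M hl G χ hχ D hD
  obtain ⟨hDp, ⟨x, hx, hDx, hix⟩, -⟩ := hD
  rw [red_ne_iff hχ] at hx
  -- the centralizer and the normalizer
  obtain ⟨C, hC⟩ : ∃ C : Subgroup G, C = Subgroup.centralizer (D : Set G) := ⟨_, rfl⟩
  obtain ⟨N, hN⟩ : ∃ N : Subgroup G, N = Subgroup.normalizer (D : Set G) := ⟨_, rfl⟩
  have hCm : ∀ w, w ∈ C ↔ ∀ d ∈ D, w * d = d * w := by
    intro w
    rw [hC, Subgroup.mem_centralizer_iff]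
    exact ⟨fun h d hd => (h d hd).symm, fun h d hd => (h d hd).symm⟩
  have hNm : ∀ n, n ∈ N ↔ ∀ d, d ∈ D ↔ n * d * n⁻¹ ∈ D := by
    intro n
    rw [hN, Subgroup.mem_normalizer_iff]
  have hcent : ∀ (a w : G), w ∈ Subgroup.centralizer ({a} : Set G) ↔ w * a = a * w := by
    intro a w
    rw [Subgroup.mem_centralizer_singleton_iff]
  have hCN : C ≤ N := by
    intro c hc
    rw [hNm]
    intro d
    rw [hCm] at hc
    constructor
    · intro hd
      rw [hc d hd, mul_assoc, mul_inv_cancel, mul_one]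
      exact hd
    · intro hd
      have h1 := hc _ hd
      have h2 : d = c⁻¹ * (c * d * c⁻¹) * c := by group
      have h3 : c⁻¹ * (c * d * c⁻¹) * c = c⁻¹ * (c * (c * d * c⁻¹)) := by
        rw [h1, mul_assoc]
      rw [h3, inv_mul_cancel_left] at h2
      rw [h2]
      exact hd
  have hDN : D ≤ N := by
    rw [hN]
    exact Subgroup.le_normalizer
  have hconjD : ∀ n ∈ N, ∀ d ∈ D, n * d * n⁻¹ ∈ D := fun n hn d hd => ((hNm n).1 hn d).1 hd
  have hconjC : ∀ n ∈ N, ∀ c ∈ C, n * c * n⁻¹ ∈ C := by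
    intro n hn c hc
    rw [hCm] at hc ⊢
    intro d hd
    have h1 := hc _ (hconjD n⁻¹ (N.inv_mem hn) d hd)
    rw [inv_inv] at h1
    calc n * c * n⁻¹ * d = n * (c * (n⁻¹ * d * n)) * n⁻¹ := by group
      _ = n * (n⁻¹ * d * n * c) * n⁻¹ := by rw [h1]
      _ = d * (n * c * n⁻¹) := by group
  -- the parts of `x`
  obtain ⟨xl, s, e, e', a, m, hxl, hs, hprod, hxla, hsm, hm⟩ := parts (ℓ := ℓ) x
  have hDx' : ∀ d ∈ D, x * d = d * x := fun d hd => ((hcent x d).1 (hDx hd)).symm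
  have hxC : x ∈ C := (hCm x).2 hDx'
  have hsC : s ∈ C := by rw [hs]; exact C.pow_mem hxC _
  have hxlC : xl ∈ C := by rw [hxl]; exact C.pow_mem hxC _
  have hxlD : xl ∈ D := by
    refine central_mem hDp hDx hix ?_ (fun d hd => (hCm xl).1 hxlC d hd) hxla
    rw [hcent, hxl]
    exact (Commute.refl x).pow_left e
  -- representatives of the `C`-classes in the `N`-class of `s`
  obtain ⟨T, hT1, hT2, hT3⟩ := reps {y : G | ∃ n ∈ N, y = n * s * n⁻¹}
    (fun y y' => ∃ c ∈ C, y' = c * y * c⁻¹) ⟨fun y => ⟨1, C.one_mem, by group⟩,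
      fun {y y'} => by
        rintro ⟨c, hc, rfl⟩
        exact ⟨c⁻¹, C.inv_mem hc, by group⟩,
      fun {y y' y''} => by
        rintro ⟨c, hc, rfl⟩ ⟨c', hc', rfl⟩
        exact ⟨c' * c, C.mul_mem hc' hc, by group⟩⟩
  have hν : ∀ y : G, ∃ n : G, y ∈ T → n ∈ N ∧ y = n * s * n⁻¹ := by
    intro y
    by_cases hy : y ∈ T
    · obtain ⟨n, hn, hn'⟩ := hT1 y hy
      exact ⟨n, fun _ => ⟨hn, hn'⟩⟩
    · exact ⟨1, fun h => absurd h hy⟩
  choose ν hν using hν
  obtain ⟨Ns, hNs⟩ : ∃ Ns : Subgroup G, Ns = N ⊓ Subgroup.centralizer ({s} : Set G) := ⟨_, rfl⟩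
  have hNsm : ∀ w, w ∈ Ns ↔ w ∈ N ∧ w * s = s * w := by
    intro w
    rw [hNs, Subgroup.mem_inf, hcent]
  have hDNs : D ≤ Ns := fun d hd => (hNsm d).2 ⟨hDN hd, ((hCm s).1 hsC d hd).symm⟩
  -- the key formula
  have key : ∀ w ∈ D, (∀ d ∈ D, w * d = d * w) →
      ¬ ℓ ∣ D.relIndex (Subgroup.centralizer ({w * s} : Set G)) →
      red M (omega (MonoidHom.id G) χ (w * s)) =
        ((N ⊓ Subgroup.centralizer ({w * s} : Set G)).relIndex Ns : FF M) * ∑ y ∈ T, μ y := by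
    intro w hwD hwc hiw
    have hwC : w ∈ C := (hCm w).2 hwc
    have hcomm : Commute w s := ((hCm s).1 hsC w hwD).symm
    obtain ⟨b, hb⟩ : ∃ b : ℕ, w ^ (ℓ ^ b) = 1 := by
      obtain ⟨b, hb⟩ := hDp ⟨w, hwD⟩
      exact ⟨b, congrArg Subtype.val hb⟩
    obtain ⟨k, k', hk, hk'⟩ := powers hcomm hb hsm hm
    obtain ⟨g, hg⟩ : ∃ g : G, g = w * s := ⟨_, rfl⟩
    rw [← hg] at hk hk' hiw ⊢
    have hgC : g ∈ C := by rw [hg]; exact C.mul_mem hwC hsC
    obtain ⟨Ng, hNg⟩ : ∃ Ng : Subgroup G, Ng = N ⊓ Subgroup.centralizer ({g} : Set G) :=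
      ⟨_, rfl⟩
    rw [← hNg]
    have hNgm : ∀ v, v ∈ Ng ↔ v ∈ N ∧ v * g = g * v := by
      intro v
      rw [hNg, Subgroup.mem_inf, hcent]
    have hgs : ∀ v : G, v * g = g * v → v * s = s * v := by
      intro v hv
      rw [← hk']
      exact ((show Commute v g from hv).pow_right k').eq
    have hNgNs : Ng ≤ Ns := by
      intro v hv
      rw [hNgm] at hv
      exact (hNsm v).2 ⟨hv.1, hgs v hv.2⟩
    obtain ⟨R, hR1, hR2, hR3, hR4⟩ := transversal Ng Ns hNgNs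
    -- the elements
    obtain ⟨F, hF⟩ : ∃ F : G × G → G, F = fun p => (ν p.1 * p.2) * g * (ν p.1 * p.2)⁻¹ := ⟨_, rfl⟩
    have huniq : ∀ p ∈ T ×ˢ R, ∀ p' ∈ T ×ˢ R, ∀ c ∈ C, c * F p * c⁻¹ = F p' → p = p' := by
      rintro ⟨y, r⟩ hp ⟨y', r'⟩ hp' c hc h
      rw [Finset.mem_product] at hp hp'
      obtain ⟨hy, hr⟩ := hp
      obtain ⟨hy', hr'⟩ := hp'
      obtain ⟨hn, hyn⟩ := hν y hy
      obtain ⟨hn', hyn'⟩ := hν y' hy'
      have hrs := (hNsm r).1 (hR1 r hr)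
      have hrs' := (hNsm r').1 (hR1 r' hr')
      rw [hF] at h
      change c * ((ν y * r) * g * (ν y * r)⁻¹) * c⁻¹ = (ν y' * r') * g * (ν y' * r')⁻¹ at h
      obtain ⟨m', hm'⟩ : ∃ m' : G, m' = (ν y' * r')⁻¹ * c * (ν y * r) := ⟨_, rfl⟩
      have hm'g : m' * g = g * m' := by
        have h1 : c * (ν y * r) * g = (ν y' * r') * g * (ν y' * r')⁻¹ * c * (ν y * r) := by
          rw [← h]; group
        calc m' * g = (ν y' * r')⁻¹ * (c * (ν y * r) * g) := by rw [hm']; group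
          _ = g * m' := by rw [h1, hm']; group
      have hm'N : m' ∈ N := by
        rw [hm']
        exact N.mul_mem (N.mul_mem (N.inv_mem (N.mul_mem hn' hrs'.1)) (hCN hc))
          (N.mul_mem hn hrs.1)
      have hm's := hgs m' hm'g
      have hm'Ng : m' ∈ Ng := (hNgm m').2 ⟨hm'N, hm'g⟩
      -- the first components agree
      have hyy : y = y' := by
        apply hT3 y hy y' hy'
        refine ⟨c, hc, ?_⟩
        have h1 : c * (ν y * r) = (ν y' * r') * m' := by rw [hm']; group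
        calc y' = ν y' * s * (ν y')⁻¹ := hyn'
          _ = (ν y' * r') * m' * s * ((ν y' * r') * m')⁻¹ := by
              have h2 : r' * m' * s = s * (r' * m') := by
                rw [mul_assoc, hm's, ← mul_assoc, hrs'.2, mul_assoc]
              calc ν y' * s * (ν y')⁻¹ = ν y' * (s * (r' * m')) * (r' * m')⁻¹ * (ν y')⁻¹ := by
                    group
                _ = ν y' * (r' * m' * s) * (r' * m')⁻¹ * (ν y')⁻¹ := by rw [h2]
                _ = _ := by group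
          _ = c * (ν y * r) * s * (c * (ν y * r))⁻¹ := by rw [h1]
          _ = c * (ν y * (r * s) * r⁻¹ * (ν y)⁻¹) * c⁻¹ := by group
          _ = c * (ν y * s * (ν y)⁻¹) * c⁻¹ := by rw [hrs.2]; group
          _ = c * y * c⁻¹ := by rw [← hyn]
      subst hyy
      obtain ⟨c', hc'⟩ : ∃ c' : G, c' = (ν y)⁻¹ * c * ν y := ⟨_, rfl⟩
      have hc'C : c' ∈ C := by
        have := hconjC (ν y)⁻¹ (N.inv_mem hn) c hc
        rw [inv_inv] at this
        rw [hc']
        exact this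
      have h3 : r' * m' = c' * r := by
        rw [hm', hc']; group
      have hc'' : r⁻¹ * c' * r ∈ C := by
        have := hconjC r⁻¹ (N.inv_mem hrs.1) c' hc'C
        rwa [inv_inv] at this
      have h4 : r⁻¹ * r' * m' = r⁻¹ * c' * r := by
        rw [mul_assoc, h3, mul_assoc]
      have h5 : r⁻¹ * r' = (r⁻¹ * c' * r) * m'⁻¹ := by
        rw [← h4]; group
      have h6 : (r⁻¹ * c' * r) ∈ Ns := by
        rw [← h4]
        exact Ns.mul_mem (Ns.mul_mem (Ns.inv_mem (hR1 r hr)) (hR1 r' hr')) (hNgNs hm'Ng)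
      have h7 : (r⁻¹ * c' * r) ∈ Ng := by
        rw [hNgm]
        refine ⟨hCN hc'', ?_⟩
        have h8 := ((hNsm _).1 h6).2
        have h9 := (hCm _).1 hc'' w hwD
        rw [hg, ← mul_assoc, h9, mul_assoc, h8, ← mul_assoc]
      have h8 : r = r' := by
        apply hR3 r hr r' hr'
        rw [h5]
        exact Ng.mul_mem h7 (Ng.inv_mem hm'Ng)
      rw [h8]
    have hinj : Set.InjOn F (T ×ˢ R : Finset (G × G)) := by
      intro p hp p' hp' h
      exact huniq p hp p' hp' 1 C.one_mem (by rw [h]; group)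
    rw [hμsum g ((T ×ˢ R).image F) ?_ ?_]
    · rw [Finset.sum_image hinj, Finset.sum_product]
      have hval : ∀ y ∈ T, ∀ r ∈ R, μ (F (y, r)) = μ y := by
        intro y hy r hr
        obtain ⟨hn, hyn⟩ := hν y hy
        have hrs := (hNsm r).1 (hR1 r hr)
        have hnr : ν y * r ∈ N := N.mul_mem hn hrs.1
        have h1 : F (y, r) = ((ν y * r) * w * (ν y * r)⁻¹) * y := by
          rw [hF]
          show (ν y * r) * g * (ν y * r)⁻¹ = ((ν y * r) * w * (ν y * r)⁻¹) * y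
          have h2 : y = (ν y * r) * s * (ν y * r)⁻¹ := by
            calc y = ν y * s * (ν y)⁻¹ := hyn
              _ = ν y * (s * r) * r⁻¹ * (ν y)⁻¹ := by group
              _ = ν y * (r * s) * r⁻¹ * (ν y)⁻¹ := by rw [hrs.2]
              _ = _ := by group
          calc (ν y * r) * g * (ν y * r)⁻¹ = ((ν y * r) * w * (ν y * r)⁻¹) *
                ((ν y * r) * s * (ν y * r)⁻¹) := by rw [hg]; group
            _ = _ := by rw [← h2]
        rw [h1]
        refine hμz y ?_ _ (hconjD _ hnr w hwD) ?_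
        · rw [← hC, hyn]
          exact hconjC _ hn s hsC
        · rw [← hC]
          exact hconjC _ hnr w hwC
      rw [Finset.mul_sum]
      refine Finset.sum_congr rfl fun y hy => ?_
      rw [Finset.sum_congr rfl fun r hr => hval y hy r hr, Finset.sum_const, nsmul_eq_mul, hR4]
    · intro v hv
      obtain ⟨⟨y, r⟩, hp, rfl⟩ := Finset.mem_image.1 hv
      rw [Finset.mem_product] at hp
      obtain ⟨hn, hyn⟩ := hν y hp.1
      have hrs := (hNsm r).1 (hR1 r hp.2)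
      rw [hF]
      refine ⟨?_, ?_⟩
      · rw [← hC]
        exact hconjC _ (N.mul_mem hn hrs.1) g hgC
      · exact isConj_iff.2 ⟨_, rfl⟩
    · intro v hv hgv
      rw [← hC] at hv ⊢
      obtain ⟨n, hn, hng⟩ := conj_in hDp ((hCm g).1 hgC) hiw ((hCm v).1 hv) hgv
      rw [← hN] at hn
      -- existence
      have hex : ∃ p ∈ T ×ˢ R, ∃ c ∈ C, v = c * F p * c⁻¹ := by
        obtain ⟨y, hy, c, hc, hyc⟩ := hT2 (n * s * n⁻¹) ⟨n, hn, rfl⟩
        obtain ⟨hny, hyn⟩ := hν y hy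
        have h1 : ((ν y)⁻¹ * c⁻¹ * n) * s = s * ((ν y)⁻¹ * c⁻¹ * n) := by
          have h2 : n * s = c * y * c⁻¹ * n := by rw [← hyc]; group
          calc ((ν y)⁻¹ * c⁻¹ * n) * s = (ν y)⁻¹ * c⁻¹ * (n * s) := by group
            _ = (ν y)⁻¹ * y * c⁻¹ * n := by rw [h2]; group
            _ = (ν y)⁻¹ * (ν y * s * (ν y)⁻¹) * c⁻¹ * n := by rw [← hyn]
            _ = _ := by group
        have h2 : ((ν y)⁻¹ * c⁻¹ * n) ∈ Ns :=
          (hNsm _).2 ⟨N.mul_mem (N.mul_mem (N.inv_mem hny) (N.inv_mem (hCN hc))) hn, h1⟩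
        obtain ⟨r, hr, hrm⟩ := hR2 _ h2
        refine ⟨(y, r), Finset.mem_product.2 ⟨hy, hr⟩, c, hc, ?_⟩
        have h3 := ((hNgm _).1 hrm).2
        have h4 : n = c * (ν y * r) * (r⁻¹ * ((ν y)⁻¹ * c⁻¹ * n)) := by group
        rw [hF]
        show v = c * ((ν y * r) * g * (ν y * r)⁻¹) * c⁻¹
        obtain ⟨q, hq⟩ : ∃ q : G, q = r⁻¹ * ((ν y)⁻¹ * c⁻¹ * n) := ⟨_, rfl⟩
        rw [← hq] at h3 h4
        calc v = n * g * n⁻¹ := hng.symm
          _ = (c * (ν y * r)) * (q * g) * q⁻¹ * (c * (ν y * r))⁻¹ := by rw [h4]; group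
          _ = _ := by rw [h3]; group
      obtain ⟨p, hp, c, hc, hv'⟩ := hex
      refine ⟨F p, ⟨Finset.mem_image.2 ⟨p, hp, rfl⟩, c, hc, hv'⟩, ?_⟩
      rintro v' ⟨hv1, c1, hc1, hv2⟩
      obtain ⟨p', hp', rfl⟩ := Finset.mem_image.1 hv1
      have h5 : p = p' := by
        refine huniq p hp p' hp' (c1⁻¹ * c) (C.mul_mem (C.inv_mem hc1) hc) ?_
        calc c1⁻¹ * c * F p * (c1⁻¹ * c)⁻¹ = c1⁻¹ * (c * F p * c⁻¹) * c1 := by group
          _ = c1⁻¹ * (c1 * F p' * c1⁻¹) * c1 := by rw [← hv', hv2]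
          _ = F p' := by group
      rw [h5]
  -- the indices
  have hidx : ∀ w ∈ D, (∀ d ∈ D, w * d = d * w) →
      D ≤ N ⊓ Subgroup.centralizer ({w * s} : Set G) ∧
      N ⊓ Subgroup.centralizer ({w * s} : Set G) ≤ Ns := by
    intro w hwD hwc
    have hcomm : Commute w s := ((hCm s).1 hsC w hwD).symm
    obtain ⟨b, hb⟩ : ∃ b : ℕ, w ^ (ℓ ^ b) = 1 := by
      obtain ⟨b, hb⟩ := hDp ⟨w, hwD⟩
      exact ⟨b, congrArg Subtype.val hb⟩
    obtain ⟨k, k', hk, hk'⟩ := powers hcomm hb hsm hm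
    constructor
    · intro d hd
      rw [Subgroup.mem_inf, hcent]
      refine ⟨hDN hd, ?_⟩
      have h1 := hwc d hd
      have h2 := (hCm s).1 hsC d hd
      rw [← mul_assoc, ← h1, mul_assoc, ← h2, ← mul_assoc]
    · intro v hv
      rw [Subgroup.mem_inf, hcent] at hv
      refine (hNsm v).2 ⟨hv.1, ?_⟩
      rw [← hk']
      exact ((show Commute v (w * s) from hv.2).pow_right k').eq
  have hxlc : ∀ d ∈ D, xl * d = d * xl := fun d hd => (hCm xl).1 hxlC d hd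
  obtain ⟨hi1, hi2⟩ := hidx xl hxlD hxlc
  rw [hprod] at hi1 hi2
  have hkx := key xl hxlD hxlc (by rw [hprod]; exact hix)
  rw [hprod] at hkx
  rw [hkx] at hx
  have hS : ∑ y ∈ T, μ y ≠ 0 := right_ne_zero_of_mul hx
  have hj : ¬ ℓ ∣ (N ⊓ Subgroup.centralizer ({x} : Set G)).relIndex Ns := fun h =>
    (left_ne_zero_of_mul hx) (nat_zero hl h)
  have hDNx : ¬ ℓ ∣ D.relIndex (N ⊓ Subgroup.centralizer ({x} : Set G)) := by
    intro h
    apply hix
    rw [← Subgroup.relIndex_mul_relIndex D _ _ hi1 inf_le_right]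
    exact h.mul_right _
  have hDNs' : ¬ ℓ ∣ D.relIndex Ns := by
    rw [← Subgroup.relIndex_mul_relIndex D _ _ hi1 hi2]
    intro h
    rcases (Nat.Prime.dvd_mul (Fact.out : ℓ.Prime)).1 h with h | h
    · exact hDNx h
    · exact hj h
  -- the element `s`
  have hzD : (1 : G) ∈ D := D.one_mem
  have hzc : ∀ d ∈ D, (1 : G) * d = d * 1 := fun d _ => by rw [one_mul, mul_one]
  obtain ⟨hg1, hg2⟩ := hidx 1 hzD hzc
  have hkey := key 1 hzD hzc
  rw [one_mul] at hg1 hg2 hkey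
  have hgi : ¬ ℓ ∣ D.relIndex (N ⊓ Subgroup.centralizer ({s} : Set G)) := by
    intro h
    apply hDNs'
    rw [← Subgroup.relIndex_mul_relIndex D _ _ hg1 hg2]
    exact h.mul_right _
  have hgj : ¬ ℓ ∣ (N ⊓ Subgroup.centralizer ({s} : Set G)).relIndex Ns := by
    intro h
    apply hDNs'
    rw [← Subgroup.relIndex_mul_relIndex D _ _ hg1 hg2]
    exact h.mul_left _
  have hDg : D ≤ Subgroup.centralizer ({s} : Set G) := hg1.trans inf_le_right
  have hgK : ¬ ℓ ∣ D.relIndex (Subgroup.centralizer ({s} : Set G)) :=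
    norm_step hDp hDg (by rw [← hN]; exact hgi)
  refine ⟨s, fun h => hm (h.trans (orderOf_dvd_of_pow_eq_one hsm)), ?_, hDg, hgK⟩
  rw [red_ne_iff hχ, hkey hgK]
  exact mul_ne_zero (nat_ne hl hgj) hS

end Pool.Agent.PP.ML.H86
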