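import Pool.Agent.Helper86_ML.Chp
import Pool.Agent.Helper97_CC.Lab

/-!
# Squad ML, stage 2: the last step of NN3 and NN2
-/

open scoped BigOperators

noncomputable section

namespace Pool.Agent.PP.ML.H86

open Pool.Agent.Helper51_AWC Pool.Agent.Helper79_WRA Pool.Agent.PP Pool.Agent.Helper98_CC
open Pool.Agent.Helper97_CC (IR mem_IR)

theorem LD_zero {M : Ideal (integralClosure ℤ ℂ)} [M.IsMaximal] (m : ℕ) : LD M m 0 := by
  refine ⟨1, 0, isIntegral_one, ?_, isIntegral_zero, by ring⟩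
  rw [red_one]
  have hM : M ≠ ⊤ := Ideal.IsMaximal.ne_top inferInstance
  have : Nontrivial (FF M) := Ideal.Quotient.nontrivial_iff.2 hM
  exact one_ne_zero

theorem LD_sum (lda : LdaStmt) {ℓ : ℕ} [Fact ℓ.Prime] {M : Ideal (integralClosure ℤ ℂ)}
    [M.IsMaximal] (hM : (ℓ : integralClosure ℤ ℂ) ∈ M) {ι : Type*} (m : ℕ) (s : Finset ι)
    (f : ι → ℂ) (h : ∀ i ∈ s, LD M m (f i)) : LD M m (∑ i ∈ s, f i) :=
  Finset.sum_induction f (LD M m) (fun a b ha hb => (lda ℓ M hM).1 m a b ha hb) (LD_zero m) h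

theorem LD_mul (lda : LdaStmt) {ℓ : ℕ} [Fact ℓ.Prime] {M : Ideal (integralClosure ℤ ℂ)}
    [M.IsMaximal] (hM : (ℓ : integralClosure ℤ ℂ) ∈ M) {m : ℕ} {z w : ℂ} (hz : LD M m z)
    (hw : IsIntegral ℤ w) : LD M m (w * z) := (lda ℓ M hM).2.2.1 m z w hz hw

theorem int_negOnePow (k : ℕ) : IsIntegral ℤ ((-1 : ℂ) ^ k) :=
  (isIntegral_one.neg).pow k

/-- From the local statements to the alternating sum. -/
theorem fin_general (lda : LdaStmt) (alb : AlbStmt) {ℓ : ℕ} [Fact ℓ.Prime]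
    {M : Ideal (integralClosure ℤ ℂ)} [M.IsMaximal] (hM : (ℓ : integralClosure ℤ ℂ) ∈ M)
    {G : Type} [Group G] [Finite G] (hO : opCore ℓ G = ⊥) {χ : G → ℂ} (hχ : χ ∈ Irr G)
    (j k : ℕ) (ε : ℂ) (hε : ε * ε = 1) (hεi : IsIntegral ℤ ε) (F : G → ℂ)
    (hnum : LD M (ℓ ^ j) (altF ℓ fun a => omF F a ^ k))
    (hloc : ∀ d : Finset (Subgroup G), (∀ D ∈ d, IsPGroup ℓ D) →
      IsChain (· ≤ ·) (d : Set (Subgroup G)) →
      open Classical in
      LD M (ℓ ^ j) (∑ a ∈ IR (stab d), omF F a ^ k -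
        ε * ∑ a ∈ IR (stab d), (if labF M a = labF M χ then (1 : ℂ) else 0))) :
    ((ℓ ^ j : ℕ) : ℤ) ∣ altSum ℓ M χ := by
  classical
  have := Fintype.ofFinite (PChain ℓ G)
  have := Fintype.ofFinite (Quotient (chainSetoid ℓ G))
  apply (lda ℓ M hM).2.2.2.2 j
  rw [alb ℓ M hM G hO χ hχ]
  have hfin : ∀ (f : (G → ℂ) → ℂ), altF ℓ f = ∑ q : Quotient (chainSetoid ℓ G),
      (-1) ^ q.out.length * ∑ a ∈ IR (stab q.out.mem), f a := by
    intro f
    unfold altF
    rw [finsum_eq_sum_of_fintype]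
    refine Finset.sum_congr rfl fun q _ => ?_
    congr 1
    rw [finsum_mem_eq_finite_toFinset_sum _ (IrrS_finite (stab q.out.mem))]
    rfl
  have h1 : LD M (ℓ ^ j) (altF ℓ (fun a => omF F a ^ k) -
      ε * altF ℓ (fun a => if labF M a = labF M χ then (1 : ℂ) else 0)) := by
    rw [hfin, hfin, Finset.mul_sum, ← Finset.sum_sub_distrib]
    apply LD_sum lda hM
    intro q _
    have h2 := LD_mul lda hM (hloc q.out.mem q.out.pgroup q.out.chain)
      (int_negOnePow q.out.length)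
    have h3 : ((-1 : ℂ) ^ q.out.length * ∑ a ∈ IR (stab q.out.mem), omF F a ^ k -
        ε * ((-1) ^ q.out.length * ∑ a ∈ IR (stab q.out.mem),
          (if labF M a = labF M χ then (1 : ℂ) else 0))) =
        (-1) ^ q.out.length * (∑ a ∈ IR (stab q.out.mem), omF F a ^ k -
          ε * ∑ a ∈ IR (stab q.out.mem), (if labF M a = labF M χ then (1 : ℂ) else 0)) := by
      ring
    rw [h3]
    exact h2
  have h4 : LD M (ℓ ^ j) (ε * altF ℓ (fun a => if labF M a = labF M χ then (1 : ℂ) else 0)) := by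
    have h5 := (lda ℓ M hM).1 _ _ _ hnum (LD_mul lda hM h1 (isIntegral_one.neg))
    have h6 : altF ℓ (fun a => omF F a ^ k) + -1 * (altF ℓ (fun a => omF F a ^ k) -
        ε * altF ℓ (fun a => if labF M a = labF M χ then (1 : ℂ) else 0)) =
        ε * altF ℓ (fun a => if labF M a = labF M χ then (1 : ℂ) else 0) := by ring
    rwa [h6] at h5
  have h7 := LD_mul lda hM h4 hεi
  rw [← mul_assoc, hε, one_mul] at h7
  exact h7

/-- The last step of NN3. -/
theorem asm3 (num : NumStmt) (alb : AlbStmt) (lda : LdaStmt) (chp : ChpStmt2) (cub : CubStmt)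
    (M : Ideal (integralClosure ℤ ℂ)) [M.IsMaximal] (hM : ((3 : ℕ) : integralClosure ℤ ℂ) ∈ M)
    {G : Type} [Group G] [Finite G] (hO : opCore 3 G = ⊥) {χ : G → ℂ} (hχ : χ ∈ Irr G)
    (F : G → ℂ) (hF : ∀ x y, F (y * x * y⁻¹) = F x) (hW : ∀ x, F x ∈ W0 3)
    (hWi : ∀ x, IsIntegral ℤ (F x)) (hDV : ∀ g, F g ≠ 0 → DV 3 9 2 g)
    (hom : ∀ d : Finset (Subgroup G), (∀ D ∈ d, IsPGroup 3 D) →
      IsChain (· ≤ ·) (d : Set (Subgroup G)) → ∀ a ∈ IrrS (stab d), IsIntegral ℤ (omF F a) ∧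
        (labF M a = labF M χ → red M (omF F a) = -1) ∧
        (labF M a ≠ labF M χ → red M (omF F a) = 0)) : (9 : ℤ) ∣ altSum 3 M χ := by
  classical
  have : Fact (Nat.Prime 3) := ⟨Nat.prime_three⟩
  have hMt : M ≠ ⊤ := Ideal.IsMaximal.ne_top inferInstance
  have hnt : Nontrivial (FF M) := Ideal.Quotient.nontrivial_iff.2 hMt
  have h1 := num 3 M hM G hO 9 F [F, F] hF hWi (by
    intro h hh
    have : h = F := by simpa using hh
    subst this
    exact ⟨hF, hWi⟩) hDV
  have h2 : (fun a : G → ℂ => omF F a * (([F, F] : List (G → ℂ)).map fun h => omF h a).prod) =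
      fun a => omF F a ^ 3 := by
    funext a
    simp only [List.map_cons, List.map_nil, List.prod_cons, List.prod_nil]
    ring
  rw [h2] at h1
  have h3 : ((3 ^ 2 : ℕ) : ℤ) ∣ altSum 3 M χ := by
    refine fin_general lda alb hM hO hχ 2 3 (-1) (by ring) (isIntegral_one.neg) F
      (by exact_mod_cast h1) ?_
    intro d hd hc
    have h4 := cub M hM (G → ℂ) (IR (stab d)) (fun a => omF F a)
      (fun a ha => (hom d hd hc a (mem_IR.1 ha)).1)
      (fun a ha => by
        by_cases h : labF M a = labF M χ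
        · exact Or.inr ((hom d hd hc a (mem_IR.1 ha)).2.1 h)
        · exact Or.inl ((hom d hd hc a (mem_IR.1 ha)).2.2 h))
      (fun i => chpH chp (stab d) F hF hW (IR (stab d)) (fun a => mem_IR) i)
    have h5 : (((IR (stab d)).filter fun a => red M (omF F a) = -1).card : ℂ) =
        ∑ a ∈ IR (stab d), (if labF M a = labF M χ then (1 : ℂ) else 0) := by
      rw [Finset.card_filter]
      push_cast
      refine Finset.sum_congr rfl fun a ha => ?_
      obtain ⟨_, q2, q3⟩ := hom d hd hc a (mem_IR.1 ha)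
      by_cases h : labF M a = labF M χ
      · rw [if_pos h, if_pos (q2 h)]
      · rw [if_neg h, if_neg]
        rw [q3 h]
        intro h0
        exact (neg_ne_zero.2 (one_ne_zero (α := FF M))) h0.symm
    rw [h5] at h4
    have h6 : ∑ a ∈ IR (stab d), omF F a ^ 3 -
        (-1 : ℂ) * ∑ a ∈ IR (stab d), (if labF M a = labF M χ then (1 : ℂ) else 0) =
        ∑ a ∈ IR (stab d), omF F a ^ 3 +
          ∑ a ∈ IR (stab d), (if labF M a = labF M χ then (1 : ℂ) else 0) := by ring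
    rw [h6]
    exact_mod_cast h4
  exact_mod_cast h3

/-- The last step of NN2. -/
theorem asm2 (num : NumStmt) (alb : AlbStmt) (lda : LdaStmt) (chp : ChpStmt2) (sqr : SqrStmt)
    (M : Ideal (integralClosure ℤ ℂ)) [M.IsMaximal] (hM : ((2 : ℕ) : integralClosure ℤ ℂ) ∈ M)
    {G : Type} [Group G] [Finite G] (hO : opCore 2 G = ⊥) {χ : G → ℂ} (hχ : χ ∈ Irr G)
    (F : G → ℂ) (hF : ∀ x y, F (y * x * y⁻¹) = F x) (hW : ∀ x, F x ∈ W0 2)
    (hWi : ∀ x, IsIntegral ℤ (F x)) (hDV : ∀ g, F g ≠ 0 → DV 2 4 1 g)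
    (hom : ∀ d : Finset (Subgroup G), (∀ D ∈ d, IsPGroup 2 D) →
      IsChain (· ≤ ·) (d : Set (Subgroup G)) → ∀ a ∈ IrrS (stab d), IsIntegral ℤ (omF F a) ∧
        (labF M a = labF M χ → red M (omF F a) = 1) ∧
        (labF M a ≠ labF M χ → red M (omF F a) = 0)) : (4 : ℤ) ∣ altSum 2 M χ := by
  classical
  have : Fact (Nat.Prime 2) := ⟨Nat.prime_two⟩
  have hMt : M ≠ ⊤ := Ideal.IsMaximal.ne_top inferInstance
  have hnt : Nontrivial (FF M) := Ideal.Quotient.nontrivial_iff.2 hMt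
  have h1 := num 2 M hM G hO 4 F [F] hF hWi (by
    intro h hh
    have : h = F := by simpa using hh
    subst this
    exact ⟨hF, hWi⟩) hDV
  have h2 : (fun a : G → ℂ => omF F a * (([F] : List (G → ℂ)).map fun h => omF h a).prod) =
      fun a => omF F a ^ 2 := by
    funext a
    simp only [List.map_cons, List.map_nil, List.prod_cons, List.prod_nil]
    ring
  rw [h2] at h1
  have h3 : ((2 ^ 2 : ℕ) : ℤ) ∣ altSum 2 M χ := by
    refine fin_general lda alb hM hO hχ 2 2 1 (by ring) isIntegral_one F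
      (by exact_mod_cast h1) ?_
    intro d hd hc
    have h4 := sqr M hM (G → ℂ) (IR (stab d)) (fun a => omF F a)
      (fun a ha => (hom d hd hc a (mem_IR.1 ha)).1)
      (fun a ha => by
        by_cases h : labF M a = labF M χ
        · exact Or.inr ((hom d hd hc a (mem_IR.1 ha)).2.1 h)
        · exact Or.inl ((hom d hd hc a (mem_IR.1 ha)).2.2 h))
      (fun i => chpH chp (stab d) F hF hW (IR (stab d)) (fun a => mem_IR) i)
    have h5 : (((IR (stab d)).filter fun a => red M (omF F a) = 1).card : ℂ) =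
        ∑ a ∈ IR (stab d), (if labF M a = labF M χ then (1 : ℂ) else 0) := by
      rw [Finset.card_filter]
      push_cast
      refine Finset.sum_congr rfl fun a ha => ?_
      obtain ⟨_, q2, q3⟩ := hom d hd hc a (mem_IR.1 ha)
      by_cases h : labF M a = labF M χ
      · rw [if_pos h, if_pos (q2 h)]
      · rw [if_neg h, if_neg]
        rw [q3 h]
        exact zero_ne_one
    rw [h5] at h4
    rw [one_mul]
    exact_mod_cast h4
  exact_mod_cast h3

end Pool.Agent.PP.ML.H86
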